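import Pool.Agent.W221.NS.Stm2
import Pool.Agent.W648.MD.LOC

/-!
The local regularity theorem for the decomposition (part ME-LOC2), adapted from MD-LOC (helper648).
-/

open MeasureTheory Set Metric
open scoped ContDiff ENNReal

namespace Pool.Agent.W19.ME

open H459R3.NS W221.NS
open Pool.Agent.W648.MD (rr_pos rr_le_quarter A2_mono B2_mono B2_nonneg nsq_le_of_A2)

theorem hyp2_mono {v W : ℝ → V → V} {G : ℝ → ℝ} {ε ε' : ℝ} (h : Hyp2 v W G ε) (hle : ε ≤ ε') :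
    Hyp2 v W G ε' :=
  ⟨h.1, h.2.1, h.2.2.1, h.2.2.2.1, h.2.2.2.2.trans hle⟩

theorem IH2_mono {Λ Λ' : ℝ} (h : Λ ≤ Λ') {y : ℝ → V} {s : ℝ} {W : ℝ → V → V} {k : ℕ}
    (hI : IH2 Λ y s W k) : IH2 Λ' y s W k := by
  have h8 : (0 : ℝ) < 8 ^ k := by positivity
  have h1 : Λ / 8 ^ k ≤ Λ' / 8 ^ k := (div_le_div_iff_of_pos_right h8).2 h
  exact ⟨fun t ht1 ht2 => (hI.1 t ht1 ht2).trans h1, hI.2.trans h1⟩

/-- The base case. -/
theorem base2 {v W : ℝ → V → V} {G : ℝ → ℝ} {ε K CW Λ : ℝ} (h : Hyp2 v W G ε)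
    (hK0 : 0 ≤ K) (hCW : 0 ≤ CW) (hε : 0 ≤ ε)
    (hK : ∀ t ∈ Ioo (-9 / 16 : ℝ) 0, A2 0 (3 / 4) (W t) ≤ K * ε)
    (hW : ∀ t ∈ Ioo (-1 : ℝ) 0, B2 0 1 (W t) ≤ CW * G t)
    (hΛ : 8 ^ 5 * ((1 + K + CW) * ε) ≤ Λ) {a : V} {y : ℝ → V} {s : ℝ}
    (hs : s ∈ Ioo (-1 / 16 : ℝ) 0) (hy : Path v W a s y) {k : ℕ} (hk : 2 ≤ k) (hk5 : k ≤ 5) :
    IH2 Λ y s W k := by
  have hr := rr_le_quarter hk
  have hr0 := rr_pos k
  have hr2 : rr k ^ 2 ≤ 1 / 16 := by nlinarith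
  obtain ⟨-, δ, hδ, hδ0, -, hpath⟩ := hy
  have h8 : (0 : ℝ) < 8 ^ k := by positivity
  have h85 : (8 : ℝ) ^ k ≤ 8 ^ 5 := pow_le_pow_right₀ (by norm_num) hk5
  have hpos : 0 ≤ (1 + K + CW) * ε := by positivity
  have hkey : (1 + K + CW) * ε ≤ Λ / 8 ^ k := by
    rw [le_div_iff₀ h8]
    calc (1 + K + CW) * ε * 8 ^ k ≤ (1 + K + CW) * ε * 8 ^ 5 :=
          mul_le_mul_of_nonneg_left h85 hpos
      _ = 8 ^ 5 * ((1 + K + CW) * ε) := by ring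
      _ ≤ Λ := hΛ
  have hs1 := hs.1
  have hs2 := hs.2
  have hK1 : 0 ≤ K * ε := by positivity
  have hK2 : 0 ≤ CW * ε := by positivity
  have hsub : ∀ t, s - rr k ^ 2 < t → t ≤ s → ball (y t) (rr k) ⊆ ball (0 : V) (5 / 8) := by
    intro t ht1 ht2
    have hy1 : dist (y t) 0 < 3 / 8 := mem_ball.1 (hpath t ⟨by linarith, by linarith⟩).2
    refine ball_subset_ball' ?_
    linarith
  refine ⟨fun t ht1 ht2 => ?_, ?_⟩
  · have ht : t ∈ Ioo (-9 / 16 : ℝ) 0 := ⟨by linarith, by linarith⟩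
    have ht' : t ∈ Ioo (-1 : ℝ) 0 := ⟨by linarith, by linarith⟩
    obtain ⟨P, hP⟩ := h.2.2.1 t ht'
    have h1 := A2_mono hP.sW ((hsub t ht1 ht2).trans
      (ball_subset_ball (by norm_num : (5 / 8 : ℝ) ≤ 3 / 4)))
    have h2 := hK t ht
    nlinarith
  · have hsubI : Ioc (s - rr k ^ 2) s ⊆ Ioo (-1 : ℝ) 0 := fun t ht =>
      ⟨by have := ht.1; linarith, by have := ht.2; linarith⟩
    have hle : ∀ t ∈ Ioc (s - rr k ^ 2) s, B2 (y t) (rr k) (W t) ≤ CW * G t := fun t ht => by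
      obtain ⟨P, hP⟩ := h.2.2.1 t (hsubI ht)
      exact (B2_mono hP.sW ((hsub t ht.1 ht.2).trans
        (ball_subset_ball (by norm_num : (5 / 8 : ℝ) ≤ 1)))).trans (hW t (hsubI ht))
    have hG0 : ∀ t ∈ Ioo (-1 : ℝ) 0, 0 ≤ G t := fun t ht => by
      obtain ⟨P, hP⟩ := h.2.2.1 t ht
      exact (B2_nonneg (v t) 0 8).trans hP.grad
    have hGi : IntegrableOn G (Ioc (s - rr k ^ 2) s) := h.2.2.2.1.mono_set hsubI
    have h1 : ∫ t in Ioc (s - rr k ^ 2) s, B2 (y t) (rr k) (W t) ≤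
        ∫ t in Ioc (s - rr k ^ 2) s, CW * G t := by
      refine integral_mono_of_nonneg (Filter.Eventually.of_forall fun t => B2_nonneg _ _ _)
        (hGi.const_mul CW) ?_
      refine (ae_restrict_iff' measurableSet_Ioc).2 (Filter.Eventually.of_forall fun t ht => ?_)
      exact hle t ht
    have h2 : ∫ t in Ioc (s - rr k ^ 2) s, G t ≤ ∫ t in Ioo (-1 : ℝ) 0, G t := by
      refine setIntegral_mono_set h.2.2.2.1 ?_ (Filter.Eventually.of_forall hsubI)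
      exact (ae_restrict_iff' measurableSet_Ioo).2 (Filter.Eventually.of_forall hG0)
    have h3 := h.2.2.2.2
    have h4 : ∫ t in Ioc (s - rr k ^ 2) s, CW * G t = CW * ∫ t in Ioc (s - rr k ^ 2) s, G t :=
      integral_const_mul _ _
    have h5 : CW * ∫ t in Ioc (s - rr k ^ 2) s, G t ≤ CW * ε :=
      mul_le_mul_of_nonneg_left (h2.trans h3) hCW
    nlinarith

theorem t_LOC2 (hB : S_BASE2) (hS : S_STEP2) (hP : S_PATH) (hW : S_WB) (_hM : S_CTM) :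
    S_LOC2 := by
  obtain ⟨K, ε₀, hK, hε₀, hB⟩ := hB
  obtain ⟨C, ε₁, hC, hε₁, hS⟩ := hS
  obtain ⟨ε₂, hε₂, hP⟩ := hP
  obtain ⟨CW, hCW, hW⟩ := hW
  set C₁ : ℝ := 8 ^ 5 * ((1 + K + CW) * (1 + C)) with hC₁
  have hC₁0 : 0 < C₁ := by positivity
  have hC₁1 : 1 ≤ C₁ := by
    rw [hC₁]
    have h1 : 1 ≤ (1 + K + CW) * (1 + C) := by nlinarith [mul_pos hK hC, mul_pos hCW hC]
    linarith
  set ε : ℝ := min ε₀ (min ε₁ (min ε₂ (1 / (9 * C ^ 2 * C₁)))) with hε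
  have hε0 : 0 < ε := by
    refine lt_min hε₀ (lt_min hε₁ (lt_min hε₂ ?_))
    positivity
  have hεa : ε ≤ ε₀ := min_le_left _ _
  have hεb : ε ≤ ε₁ := (min_le_right _ _).trans (min_le_left _ _)
  have hεc : ε ≤ ε₂ := (min_le_right _ _).trans ((min_le_right _ _).trans (min_le_left _ _))
  have hεd : ε ≤ 1 / (9 * C ^ 2 * C₁) :=
    (min_le_right _ _).trans ((min_le_right _ _).trans (min_le_right _ _))
  set Λ : ℝ := C₁ * ε with hΛ
  have hΛ0 : 0 < Λ := by positivity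
  have hεΛ : ε ≤ Λ := by rw [hΛ]; nlinarith
  have hΛC : C ^ 2 * Λ ≤ 1 / 9 := by
    rw [le_div_iff₀ (by positivity)] at hεd
    rw [hΛ]
    nlinarith
  have hsq : C * √Λ ≤ 1 / 3 := by
    have h1 : (C * √Λ) ^ 2 ≤ (1 / 3) ^ 2 := by
      rw [mul_pow, Real.sq_sqrt hΛ0.le]
      linarith
    exact le_of_sq_le_sq h1 (by norm_num)
  have hsq' : C * √ε ≤ 1 / 3 :=
    (mul_le_mul_of_nonneg_left (Real.sqrt_le_sqrt hεΛ) hC.le).trans hsq
  have hb : 8 ^ 5 * ((1 + K + CW) * ε) ≤ Λ := by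
    have h1 : 0 ≤ 8 ^ 5 * ((1 + K + CW) * ε) * C := by positivity
    calc 8 ^ 5 * ((1 + K + CW) * ε)
        ≤ 8 ^ 5 * ((1 + K + CW) * ε) + 8 ^ 5 * ((1 + K + CW) * ε) * C := by linarith
      _ = Λ := by rw [hΛ, hC₁]; ring
  have hstep : C * ((1 + K) * ε + Λ * √Λ + Λ * √ε) ≤ Λ := by
    have h1 : C * ((1 + K) * ε) ≤ Λ / 3 := by
      have h2 : 0 ≤ (1 + K) * ε := by positivity
      have h3 : 0 ≤ C * ((1 + K) * ε) := by positivity
      have h5 : 0 ≤ CW * ε := by positivity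
      have h6 : 0 ≤ C * (CW * ε) := by positivity
      have h4 : Λ = 8 ^ 5 * ((1 + K) * ε) + 8 ^ 5 * (C * ((1 + K) * ε)) + 8 ^ 5 * (CW * ε)
          + 8 ^ 5 * (C * (CW * ε)) := by
        rw [hΛ, hC₁]; ring
      rw [h4]
      norm_num
      nlinarith
    have h2 : C * (Λ * √Λ) ≤ Λ / 3 := by
      calc C * (Λ * √Λ) = Λ * (C * √Λ) := by ring
        _ ≤ Λ * (1 / 3) := mul_le_mul_of_nonneg_left hsq hΛ0.le
        _ = Λ / 3 := by ring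
    have h3 : C * (Λ * √ε) ≤ Λ / 3 := by
      calc C * (Λ * √ε) = Λ * (C * √ε) := by ring
        _ ≤ Λ * (1 / 3) := mul_le_mul_of_nonneg_left hsq' hΛ0.le
        _ = Λ / 3 := by ring
    rw [mul_add, mul_add]
    linarith
  refine ⟨ε, √Λ, hε0, Real.sqrt_pos.2 hΛ0, ?_⟩
  intro v W G h s hs a ha i
  have hKε : ∀ t ∈ Ioo (-9 / 16 : ℝ) 0, A2 0 (3 / 4) (W t) ≤ K * ε := hB ε hε0 hεa v W G h
  obtain ⟨y, hy⟩ := hP v W G (hyp2_mono h hεc) a ha s hs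
  have hWB : ∀ t ∈ Ioo (-1 : ℝ) 0, B2 0 1 (W t) ≤ CW * G t := fun t ht => by
    obtain ⟨P, hPt⟩ := h.2.2.1 t ht
    exact (hW _ _ _ _ _ hPt).2.1
  have hall : ∀ n k : ℕ, 2 ≤ k → k ≤ n → IH2 Λ y s W k := by
    intro n
    induction n with
    | zero => intro k hk1 hk2; omega
    | succ n ih =>
      intro k hk1 hk2
      rcases Nat.lt_or_ge k (n + 1) with hlt | hge
      · exact ih k hk1 (by omega)
      · have hkn : k = n + 1 := by omega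
        subst hkn
        rcases Nat.lt_or_ge n 5 with h5 | h5
        · exact base2 h hK.le hCW.le hε0.le hKε hWB hb hs hy hk1 (by omega)
        · exact IH2_mono hstep (hS ε hε0 hεb v W G h K hK.le hKε Λ hΛ0.le a y s hs hy n h5 ih)
  have hs' : s ∈ Ioo (-1 : ℝ) 0 := ⟨by have := hs.1; linarith, hs.2⟩
  have hv : ContDiff ℝ ∞ (W s) := by
    obtain ⟨P, hPt⟩ := h.2.2.1 s hs'
    exact hPt.sW
  have hA : ∀ k : ℕ, 2 ≤ k → A2 a (rr k) (W s) ≤ Λ / 8 ^ k := fun k hk => by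
    have := (hall k k hk le_rfl).1 s (by have := rr_pos k; nlinarith) le_rfl
    rwa [hy.1] at this
  have hn := nsq_le_of_A2 hv a Λ hA
  have hi : W s a i ^ 2 ≤ nsq (W s) a := by
    unfold nsq
    exact Finset.single_le_sum (f := fun i => W s a i ^ 2) (fun j _ => sq_nonneg _)
      (Finset.mem_univ i)
  refine Real.abs_le_sqrt ?_
  linarith

end Pool.Agent.W19.ME
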